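import Pool.Agent.Helper35.HC.StD

/-!
# HC module EA2 (MP_925021_gt): the algebraic inequality behind the `L^p` estimate
-/

set_option autoImplicit false

namespace Pool.Agent.Helper30.HC

open Helper35.HC Helper35.HSF Helper35.MS Helper35.PI Helper35.PI2 Helper32.CL

private lemma alg (n p μ δ θ e G Z R w m t g Y B U q σb σy S : ℝ) (hθ : 0 < θ) (hn : 2 ≤ n)
    (hp : n < p) (hμ : 0 < μ) (hm : m = n - p) (hg : g ≤ 1) (hδ : δ < 1)
    (ht : t ≤ (1 - δ) * G) (he0 : 0 ≤ e) (he : e ≤ 2 * n * G) (hB : 0 ≤ B) (hU : 0 ≤ U)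
    (hG : 0 ≤ G) (hBG : θ * B ≤ 4 * G) (hS : S ≤ θ * (2 * n * G))
    (i1 : 0 ≤ p ^ 2 / 4 * U + 2 * p * (n - 1) * q + 4 * (n - 1) ^ 2 * B)
    (i3 : 0 ≤ θ ^ 2 * B - 2 * θ * σb + S)
    (i4 : 0 ≤ 4 * B + 4 * q + U)
    (i5 : 0 ≤ (p - 1) ^ 2 * θ ^ 2 * U - 8 * μ * (p - 1) * θ * σy + 16 * μ ^ 2 * S)
    (i6 : 0 ≤ (p - 1) ^ 2 * U + 8 * μ * (p - 1) * q + 16 * μ ^ 2 * B)
    (cY : -(p * (p - 1)) + p ^ 2 / 4 + μ * (n - 1) / 8 + (p - 1) ^ 2 / 8 + (p - 1) ^ 2 / 16 ≤ 0)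
    (cG : -(2 * p * δ) + 16 * (n - 1) ^ 2 + μ * (n - 1) * (n + 2) + 4 * μ ^ 2 + 4 * n * μ ^ 2
      + 2 * n * μ ≤ 0) :
    p * (-2 * G + 2 * R) - p * (p - 1) * θ * (B + U + 2 * q) + m * (-2 * t + 2 * w * θ)
      - m * (m - 1) * θ * B - 2 * p * m * θ * (B + q) - Y * θ + μ * (g * e - G - Z)
      + μ * ((n - 1) * σb + (p - 1) * σy
        - 1 / 2 * θ * ((n - 1) * (B + q) + (p - 1) * (q + U)))
      ≤ 2 * p * R + 2 * (n - p) * w * θ - Y * θ - μ * Z := by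
  have hp1 : 0 ≤ p - 1 := by linarith
  have hn1 : 0 ≤ n - 1 := by linarith
  -- `σb`
  have a3 : σb ≤ (n + 2) * G := by
    have h2 : θ * (2 * σb) ≤ θ * (2 * ((n + 2) * G)) := by
      have h3 : θ * (θ * B) ≤ θ * (4 * G) := mul_le_mul_of_nonneg_left hBG hθ.le
      linarith
    have h4 := le_of_mul_le_mul_left h2 hθ
    linarith
  have a5 : μ * (p - 1) * σy ≤ 1 / 8 * (p - 1) ^ 2 * (θ * U) + 4 * n * μ ^ 2 * G := by
    have h2 : θ * (8 * (μ * (p - 1) * σy))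
        ≤ θ * ((p - 1) ^ 2 * (θ * U) + 32 * n * μ ^ 2 * G) := by
      have h3 : 16 * μ ^ 2 * S ≤ 16 * μ ^ 2 * (θ * (2 * n * G)) :=
        mul_le_mul_of_nonneg_left hS (by positivity)
      linarith
    have h4 := le_of_mul_le_mul_left h2 hθ
    linarith
  -- products
  have b1 : θ * (-(2 * p * (n - 1) * q)) ≤ θ * (p ^ 2 / 4 * U + 4 * (n - 1) ^ 2 * B) :=
    mul_le_mul_of_nonneg_left (by linarith) hθ.le
  have b1' : 4 * (n - 1) ^ 2 * (θ * B) ≤ 4 * (n - 1) ^ 2 * (4 * G) :=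
    mul_le_mul_of_nonneg_left hBG (by positivity)
  have b2 : (p - n) * (2 * t) ≤ (p - n) * (2 * ((1 - δ) * G)) :=
    mul_le_mul_of_nonneg_left (by linarith) (by linarith)
  have b2' : 0 ≤ n * ((1 - δ) * G) :=
    mul_nonneg (by linarith) (mul_nonneg (by linarith) hG)
  have b3 : μ * (n - 1) * σb ≤ μ * (n - 1) * ((n + 2) * G) :=
    mul_le_mul_of_nonneg_left a3 (mul_nonneg hμ.le hn1)
  have b4 : μ * (n - 1) * θ * (-(1 / 2 * (B + q))) ≤ μ * (n - 1) * θ * (U / 8) :=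
    mul_le_mul_of_nonneg_left (by linarith) (mul_nonneg (mul_nonneg hμ.le hn1) hθ.le)
  have b6 : θ * (-(1 / 2 * (μ * (p - 1) * q))) ≤ θ * ((p - 1) ^ 2 / 16 * U + μ ^ 2 * B) :=
    mul_le_mul_of_nonneg_left (by linarith) hθ.le
  have b6' : μ ^ 2 * (θ * B) ≤ μ ^ 2 * (4 * G) := mul_le_mul_of_nonneg_left hBG (by positivity)
  have b7 : 0 ≤ μ * (p - 1) * (θ * U) := by positivity
  have b8 : μ * (g * e) ≤ μ * (2 * n * G) := by
    apply mul_le_mul_of_nonneg_left _ hμ.le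
    have := mul_le_mul_of_nonneg_right hg he0
    linarith
  have b9 : 0 ≤ μ * G := by positivity
  have b12 : 0 ≤ (n * (n - 1)) * (θ * B) := by
    exact mul_nonneg (mul_nonneg (by linarith) hn1) (by positivity)
  -- coefficients
  have c1 := mul_nonneg (neg_nonneg.mpr cY) (show 0 ≤ θ * U by positivity)
  have c2 := mul_nonneg (neg_nonneg.mpr cG) hG
  subst hm
  linarith [b1, b1', b2, b2', b3, b4, b6, b6', b7, b8, b9, b12, c1, c2, a5]

private lemma comb_sq {V : Type} [NormedAddCommGroup V] [InnerProductSpace ℝ V] (u v : V)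
    (α β : ℝ) : 0 ≤ α ^ 2 * ‖u‖ ^ 2 + 2 * (α * β) * inner ℝ u v + β ^ 2 * ‖v‖ ^ 2 := by
  have h := sq_nonneg ‖α • u + β • v‖
  rw [norm_add_sq_real, norm_smul, norm_smul, real_inner_smul_left, real_inner_smul_right,
    mul_pow, mul_pow, Real.norm_eq_abs, Real.norm_eq_abs, sq_abs, sq_abs] at h
  linarith

private lemma case_pos (n p : ℕ) (μ δ θ Y e G R Z w m : ℝ) {V : Type} [NormedAddCommGroup V]
    [InnerProductSpace ℝ V] (a d s : V) (hθ : 0 < θ) (hn : 2 ≤ n)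
    (hp : n < p) (hμ : 0 < μ) (hm : m = n - p) (hY : 0 < Y) (he : 0 ≤ e)
    (hG : 0 ≤ G) (hδ : δ < 1)
    (hte : θ * e ≤ (1 - δ) * G * Y) (he2 : e ≤ 2 * n * G) (hδ0 : 0 < δ)
    (hS : ‖s‖ ^ 2 ≤ θ * e) (hd : ‖d‖ ^ 2 ≤ 4 * Y * e)
    (cY : -((p : ℝ) * (p - 1)) + (p : ℝ) ^ 2 / 4 + μ * (n - 1) / 8 + ((p : ℝ) - 1) ^ 2 / 8
      + ((p : ℝ) - 1) ^ 2 / 16 ≤ 0)
    (cG : -(2 * (p : ℝ) * δ) + 16 * ((n : ℝ) - 1) ^ 2 + μ * (n - 1) * (n + 2) + 4 * μ ^ 2
      + 4 * n * μ ^ 2 + 2 * n * μ ≤ 0) :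
    p * θ * (-2 * G + 2 * R) - p * (p - 1) * ‖a‖ ^ 2
        + θ ^ 2 * (m / Y) * (-2 * e + 2 * w * Y) - m * (m - 1) * θ ^ 2 * ‖d‖ ^ 2 / Y ^ 2
        - 2 * p * m * θ * inner ℝ a d / Y - Y * θ ^ 2
        + μ * θ * ((1 - 1 / (n : ℝ)) * e - G - Z)
        + μ * inner ℝ (((p : ℝ) - 1) • a + (m * θ / Y) • d) (s - (1 / 2 : ℝ) • a)
      ≤ θ * (2 * p * R + 2 * (n - p) * w * θ - Y * θ - μ * Z) := by
  have hn0 : (0 : ℝ) < n := by exact_mod_cast (by omega : 0 < n)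
  have hn2 : (2 : ℝ) ≤ n := by exact_mod_cast hn
  have hpn : (n : ℝ) < p := by exact_mod_cast hp
  obtain ⟨b, hb⟩ : ∃ b : V, b = (1 / Y) • d := ⟨_, rfl⟩
  obtain ⟨y, hy⟩ : ∃ y : V, y = (1 / θ) • a - b := ⟨_, rfl⟩
  have hd' : d = Y • b := by
    rw [hb, smul_smul]
    have : Y * (1 / Y) = 1 := by field_simp
    rw [this, one_smul]
  have ha : a = θ • (b + y) := by
    rw [hy, add_sub_cancel, smul_smul]
    have : θ * (1 / θ) = 1 := by field_simp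
    rw [this, one_smul]
  obtain ⟨B, hB⟩ : ∃ B : ℝ, B = ‖b‖ ^ 2 := ⟨_, rfl⟩
  obtain ⟨U, hU⟩ : ∃ U : ℝ, U = ‖y‖ ^ 2 := ⟨_, rfl⟩
  obtain ⟨q, hq⟩ : ∃ q : ℝ, q = inner ℝ y b := ⟨_, rfl⟩
  obtain ⟨σb, hσb⟩ : ∃ σb : ℝ, σb = inner ℝ b s := ⟨_, rfl⟩
  obtain ⟨σy, hσy⟩ : ∃ σy : ℝ, σy = inner ℝ y s := ⟨_, rfl⟩
  obtain ⟨S, hSd⟩ : ∃ S : ℝ, S = ‖s‖ ^ 2 := ⟨_, rfl⟩
  have hbb : (inner ℝ b b : ℝ) = B := by rw [real_inner_self_eq_norm_sq, hB]
  have hyy : (inner ℝ y y : ℝ) = U := by rw [real_inner_self_eq_norm_sq, hU]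
  have hby : (inner ℝ b y : ℝ) = q := by rw [real_inner_comm, hq]
  have hnd : ‖d‖ ^ 2 = Y ^ 2 * B := by
    rw [hd', norm_smul, mul_pow, Real.norm_eq_abs, sq_abs, ← hB]
  have hna : ‖a‖ ^ 2 = θ ^ 2 * (B + U + 2 * q) := by
    rw [ha, norm_smul, mul_pow, Real.norm_eq_abs, sq_abs, norm_add_sq_real, ← hB, ← hU, hby]; ring
  have had : (inner ℝ a d : ℝ) = θ * Y * (B + q) := by
    rw [ha, hd', real_inner_smul_left, real_inner_smul_right, inner_add_left, hbb, ← hq]; ring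
  have has : (inner ℝ a s : ℝ) = θ * (σb + σy) := by
    rw [ha, real_inner_smul_left, inner_add_left, ← hσb, ← hσy]
  have hds : (inner ℝ d s : ℝ) = Y * σb := by
    rw [hd', real_inner_smul_left, ← hσb]
  have hin : (inner ℝ (((p : ℝ) - 1) • a + (m * θ / Y) • d) (s - (1 / 2 : ℝ) • a) : ℝ)
      = θ * ((n - 1) * σb + (p - 1) * σy
        - 1 / 2 * θ * ((n - 1) * (B + q) + (p - 1) * (q + U))) := by
    rw [inner_add_left, real_inner_smul_left, real_inner_smul_left, inner_sub_right,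
      inner_sub_right, real_inner_smul_right, real_inner_smul_right, has, hds,
      real_inner_self_eq_norm_sq, hna, real_inner_comm a d, had, hm]
    field_simp
    ring
  have hB0 : 0 ≤ B := by rw [hB]; positivity
  have hYB : Y * B ≤ 4 * e := by
    have h2 : Y * (Y * B) ≤ Y * (4 * e) := by
      have : Y * (Y * B) = Y ^ 2 * B := by ring
      rw [this, ← hnd]
      linarith
    exact le_of_mul_le_mul_left h2 hY
  have hBG : θ * B ≤ 4 * G := by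
    have h2 : Y * (θ * B) ≤ Y * (4 * G) := by
      have h3 : θ * (Y * B) ≤ θ * (4 * e) := mul_le_mul_of_nonneg_left hYB hθ.le
      have h4 : 0 ≤ δ * (G * Y) := by positivity
      linarith
    exact le_of_mul_le_mul_left h2 hY
  have key := alg n p μ δ θ e G Z R w m (θ * e / Y) (1 - 1 / (n : ℝ)) Y B U q σb σy S hθ hn2
    hpn hμ hm
    (by have : 0 ≤ 1 / (n : ℝ) := by positivity
        linarith) hδ (by rw [div_le_iff₀ hY]; exact hte) he he2 hB0 (by rw [hU]; positivity) hG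
    hBG (by
      rw [hSd]
      exact hS.trans (mul_le_mul_of_nonneg_left he2 hθ.le))
    (by
      have h := comb_sq y b ((p : ℝ) / 2) (2 * ((n : ℝ) - 1))
      rw [← hU, ← hB, ← hq] at h
      linarith)
    (by
      have h := comb_sq b s θ (-1)
      rw [← hSd, ← hB, ← hσb] at h
      linarith)
    (by
      have h := comb_sq b y 2 1
      rw [← hU, ← hB, hby] at h
      linarith)
    (by
      have h := comb_sq y s (((p : ℝ) - 1) * θ) (-(4 * μ))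
      rw [← hSd, ← hU, ← hσy] at h
      linarith)
    (by
      have h := comb_sq y b ((p : ℝ) - 1) (4 * μ)
      rw [← hU, ← hB, ← hq] at h
      linarith) cY cG
  have h2 := mul_le_mul_of_nonneg_left key hθ.le
  rw [hin, hna, hnd, had]
  have e1 : 2 * (p : ℝ) * m * θ * (θ * Y * (B + q)) / Y = 2 * p * m * θ ^ 2 * (B + q) := by
    field_simp
  have e2 : m * (m - 1) * θ ^ 2 * (Y ^ 2 * B) / Y ^ 2 = m * (m - 1) * θ ^ 2 * B := by
    field_simp
  have e3 : θ ^ 2 * (m / Y) * (-2 * e + 2 * w * Y)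
      = θ * (m * (-2 * (θ * e / Y) + 2 * w * θ)) := by
    field_simp
  rw [e1, e2, e3]
  linarith

/-- HC module EA2 -/
theorem hEA2 : StEA2 := by
  intro n δ hn hδ hδ1
  have hn2 : (2 : ℝ) ≤ n := by exact_mod_cast hn
  have hn0 : (0 : ℝ) < n := by linarith
  obtain ⟨μ, hμd⟩ : ∃ μ : ℝ, μ = 4 * n / δ := ⟨_, rfl⟩
  have hμ : 0 < μ := by rw [hμd]; positivity
  have hμδ : μ * δ = 4 * n := by rw [hμd]; field_simp
  obtain ⟨c, hc⟩ : ∃ c : ℝ, c = 16 * ((n : ℝ) - 1) ^ 2 + μ * (n - 1) * (n + 2) + 4 * μ ^ 2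
      + 4 * n * μ ^ 2 + 2 * n * μ := ⟨_, rfl⟩
  have hn1 : 0 ≤ (n : ℝ) - 1 := by linarith
  have hc0 : 0 ≤ c := by
    rw [hc]
    have : 0 ≤ μ * (n - 1) * (n + 2) := by positivity
    positivity
  obtain ⟨k, hk⟩ := exists_nat_ge (c / (2 * δ) + μ / (2 * δ ^ 2) + μ * n + n + 3)
  have t1 : 0 ≤ c / (2 * δ) := by positivity
  have t2 : 0 ≤ μ / (2 * δ ^ 2) := by positivity
  have t3 : 0 ≤ μ * n := by positivity
  have hk1 : c ≤ 2 * k * δ := by
    have h1 : c / (2 * δ) ≤ k := by linarith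
    rw [div_le_iff₀ (by positivity)] at h1
    linarith
  have hk2 : μ / δ ≤ 2 * k * δ := by
    have h1 : μ / (2 * δ ^ 2) ≤ k := by linarith
    rw [div_le_iff₀ (by positivity)] at h1
    rw [div_le_iff₀ hδ]
    linarith
  have hk3 : μ * n ≤ k := by linarith
  have hk4 : (n : ℝ) < k := by linarith
  have hk5 : (3 : ℝ) ≤ k := by linarith
  have hkn : n < k := by exact_mod_cast hk4
  have hk3' : 3 ≤ k := by exact_mod_cast hk5
  have hμδ0 : 0 ≤ μ / δ := by positivity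
  have cY : -((k : ℝ) * (k - 1)) + (k : ℝ) ^ 2 / 4 + μ * (n - 1) / 8 + ((k : ℝ) - 1) ^ 2 / 8
      + ((k : ℝ) - 1) ^ 2 / 16 ≤ 0 := by
    have : 0 ≤ (k : ℝ) * (k - 3) := mul_nonneg (by linarith) (by linarith)
    linarith
  have cG : -(2 * (k : ℝ) * δ) + 16 * ((n : ℝ) - 1) ^ 2 + μ * (n - 1) * (n + 2) + 4 * μ ^ 2
      + 4 * n * μ ^ 2 + 2 * n * μ ≤ 0 := by
    linarith
  refine ⟨k, μ, 20 * k + 4 * n + μ / δ, hkn, hk3', hμ, by positivity, ?_⟩
  intro V _ _ a d s θ Y e G R Z al w m hθ0 hY he hG hal halθ hθY heG hs ha hd hw1 hw2 hR hZ hm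
    E hE
  rcases eq_or_lt_of_le hθ0 with h | hθ
  · have hθ : θ = 0 := h.symm
    subst hθ
    have ha0 : a = 0 := by
      have : ‖a‖ ^ 2 ≤ 0 := by linarith
      have h3 : ‖a‖ = 0 := pow_eq_zero_iff (two_ne_zero) |>.mp (le_antisymm this (sq_nonneg _))
      exact norm_eq_zero.mp h3
    have hs0 : s = 0 := by
      have : ‖s‖ ^ 2 ≤ 0 := by linarith
      have h3 : ‖s‖ = 0 := pow_eq_zero_iff (two_ne_zero) |>.mp (le_antisymm this (sq_nonneg _))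
      exact norm_eq_zero.mp h3
    have hE0 : E = 0 := by
      rw [hE, ha0, hs0]
      simp
    rw [hE0]
    exact ⟨by simp, fun _ => le_refl _⟩
  · obtain ⟨c', hc'⟩ : ∃ c' : ℝ, c' = 2 * ((n : ℝ) - 1) / (n * (n + 2)) := ⟨_, rfl⟩
    have hn1' : 0 < (n : ℝ) - 1 := by linarith
    have hc'0 : 0 < c' := by rw [hc']; positivity
    have hcc : c' * (n * (n + 2) / (2 * ((n : ℝ) - 1))) = 1 := by
      rw [hc']
      field_simp
    have he2 : e ≤ 2 * n * G := by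
      refine heG.trans (mul_le_mul_of_nonneg_right ?_ hG)
      rw [div_le_iff₀ (by positivity)]
      have : 0 ≤ (n : ℝ) * (n - 2) := mul_nonneg (by linarith) (by linarith)
      linarith
    have hte : θ * e ≤ (1 - δ) * G * Y := by
      rw [← hc'] at hθY
      have h1 : θ * e ≤ ((1 - δ) * c' * Y) * (n * (n + 2) / (2 * ((n : ℝ) - 1)) * G) :=
        mul_le_mul hθY heG he (by
          have : 0 ≤ 1 - δ := by linarith
          positivity)
      have h2 : ((1 - δ) * c' * Y) * (n * (n + 2) / (2 * ((n : ℝ) - 1)) * G)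
          = (1 - δ) * G * Y * (c' * (n * (n + 2) / (2 * ((n : ℝ) - 1)))) := by ring
      rw [h2, hcc, mul_one] at h1
      exact h1
    have hmain := case_pos n k μ δ θ Y e G R Z w m a d s hθ hn hkn hμ hm hY he hG hδ1 hte he2 hδ
      hs hd cY cG
    rw [← hE] at hmain
    have hw0 : 0 ≤ w := le_trans (by positivity) hw1
    have hZ' : μ * (δ * Y * θ - 1 / δ * Y * al) ≤ μ * Z := mul_le_mul_of_nonneg_left hZ hμ.le
    have e1 : μ * (δ * Y * θ - 1 / δ * Y * al) = 4 * n * (Y * θ) - μ / δ * (Y * al) := by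
      rw [← hμδ]
      ring
    rw [e1] at hZ'
    have hwθ : w * θ ≤ 2 * Y * θ := mul_le_mul_of_nonneg_right hw2 hθ.le
    have hnw : 2 * n * (w * θ) ≤ 2 * n * (2 * Y * θ) :=
      mul_le_mul_of_nonneg_left hwθ (by positivity)
    have hYθ : 0 ≤ Y * θ := by positivity
    constructor
    · have h1 : 2 * k * R + 2 * (n - k) * w * θ - Y * θ - μ * Z
          ≤ (20 * k + 4 * n + μ / δ) * Y * θ := by
        have r1 : 2 * (k : ℝ) * R ≤ 2 * k * (10 * Y * θ) :=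
          mul_le_mul_of_nonneg_left hR (by positivity)
        have r2 : 0 ≤ 2 * (k : ℝ) * (w * θ) := by positivity
        have r3 : μ / δ * (Y * al) ≤ μ / δ * (Y * θ) :=
          mul_le_mul_of_nonneg_left (mul_le_mul_of_nonneg_left halθ hY.le) hμδ0
        have r4 : 0 ≤ 4 * (n : ℝ) * (Y * θ) := by positivity
        linarith
      have h2 := mul_le_mul_of_nonneg_left h1 hθ.le
      linarith
    · intro hRw
      have h1 : 2 * k * R + 2 * (n - k) * w * θ - Y * θ - μ * Z ≤ 0 := by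
        have r1 : 2 * (k : ℝ) * (R - θ * w) ≤ 2 * k * (-(δ * Y * al)) :=
          mul_le_mul_of_nonneg_left hRw (by positivity)
        have r3 : μ / δ * (Y * al) ≤ 2 * k * δ * (Y * al) :=
          mul_le_mul_of_nonneg_right hk2 (by positivity)
        linarith
      have h2 := mul_le_mul_of_nonneg_left h1 hθ.le
      linarith

end Pool.Agent.Helper30.HC
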